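import Mathlib
import Pool.Agent.Q212.TL4

/-!
# The log-Sobolev constant of Gaussian tilts is not controlled by the log-Sobolev constant
-/

namespace Pool.Agent.Results.MP_13a01f_pr.NotStable

open MeasureTheory
open scoped ENNReal NNReal
open Pool.Agent.Q212.Tilt

/-- For every `C` there are a compactly supported log-concave probability measure `π` on `ℝ^1` and
`h > 0` with `C_LSI(π γ_h) > C · C_LSI(π)`. -/
theorem result : ∀ C : ℝ≥0, ∃ (π : Measure (E 1)) (h : ℝ), IsProbabilityMeasure π ∧
    IsLogConcave π ∧ HasCompactSupp π ∧ 0 < h ∧ C * CLSI π < CLSI (gaussTilt π h) :=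
  one_dim

end Pool.Agent.Results.MP_13a01f_pr.NotStable
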